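import Mathlib
import Pool.Agent.Lib.MP_02f36d_nt.LI.Desc

/-! The curves `y ^ 2 = x ^ 3 + a * x ^ 2 + b * x`: group law, heights, descent map. -/

set_option autoImplicit false

noncomputable section

namespace Pool.Agent.Lib.MP_02f36d_nt.TW.RankAux

open WeierstrassCurve WeierstrassCurve.Affine WeierstrassCurve.Affine.Point Height

/-- The curve `y ^ 2 = x ^ 3 + a * x ^ 2 + b * x`. -/
def cv (a b : ℚ) : WeierstrassCurve ℚ := ⟨0, a, 0, b, 0⟩

abbrev G (a b : ℚ) := (cv a b).toAffine.Point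

variable {a b : ℚ}

lemma eqn {x y : ℚ} (h : (cv a b).toAffine.Nonsingular x y) :
    y ^ 2 = x ^ 3 + a * x ^ 2 + b * x := by
  have := (equation_iff _ _).1 h.1
  simp [cv] at this
  linarith

lemma mkNS [(cv a b).IsElliptic] {x y : ℚ} (h : y ^ 2 = x ^ 3 + a * x ^ 2 + b * x) :
    (cv a b).toAffine.Nonsingular x y := by
  apply equation_iff_nonsingular.1
  rw [equation_iff]
  simp [cv]
  linarith

lemma negY_cv (x y : ℚ) : (cv a b).toAffine.negY x y = -y := by simp [cv, negY]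

lemma add_struct {x₁ y₁ x₂ y₂ : ℚ} (h₁ : (cv a b).toAffine.Nonsingular x₁ y₁)
    (h₂ : (cv a b).toAffine.Nonsingular x₂ y₂) (hxy : ¬ (x₁ = x₂ ∧ y₁ = -y₂)) :
    ∃ (l x₃ y₃ : ℚ) (h₃ : (cv a b).toAffine.Nonsingular x₃ y₃),
      (some x₁ y₁ h₁ : G a b) + some x₂ y₂ h₂ = some x₃ y₃ h₃ ∧ x₃ = l ^ 2 - a - x₁ - x₂ ∧
      y₁ - y₂ = l * (x₁ - x₂) ∧
      x₁ ^ 2 + x₁ * x₂ + x₂ ^ 2 - (l ^ 2 - a) * (x₁ + x₂) + b - 2 * l * (y₁ - l * x₁) = 0 := by
  have e1 := eqn h₁
  have e2 := eqn h₂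
  refine ⟨(cv a b).toAffine.slope x₁ x₂ y₁ y₂, _, _, _,
    add_some (by rwa [negY_cv]), by simp [cv, addX], ?_⟩
  by_cases hx : x₁ = x₂
  · subst hx
    have hy : y₁ ≠ -y₂ := fun h => hxy ⟨rfl, h⟩
    have hy2 : y₁ = y₂ := by
      have : (y₁ - y₂) * (y₁ + y₂) = 0 := by linear_combination e1 - e2
      rcases mul_eq_zero.1 this with h | h
      · linarith
      · exact absurd (by linarith) hy
    subst hy2
    have hy0 : y₁ ≠ 0 := fun h => hy (by rw [h]; simp)
    rw [slope_of_Y_ne rfl (by rwa [negY_cv]), negY_cv]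
    simp only [cv, toAffine]
    refine ⟨by simp, ?_⟩
    have : y₁ - -y₁ = 2 * y₁ := by ring
    rw [this]
    field_simp
    ring
  · rw [slope_of_X_ne hx]
    have hx0 : x₁ - x₂ ≠ 0 := sub_ne_zero.2 hx
    refine ⟨by field_simp, ?_⟩
    field_simp
    linear_combination (x₁ - x₂) * e2 - (x₁ - x₂) * e1

lemma dbl_x {x y : ℚ} (h : (cv a b).toAffine.Nonsingular x y) (hy : y ≠ 0) :
    ∃ (x₃ y₃ : ℚ) (h₃ : (cv a b).toAffine.Nonsingular x₃ y₃),
      (some x y h : G a b) + some x y h = some x₃ y₃ h₃ ∧ (x ^ 2 - b) ^ 2 = 4 * y ^ 2 * x₃ := by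
  obtain ⟨l, x₃, y₃, h₃, e1, e2, -, e4⟩ := add_struct h h (fun hh => hy (by linarith [hh.2]))
  refine ⟨x₃, y₃, h₃, e1, ?_⟩
  rw [e2]
  linear_combination (3 * x ^ 2 + 2 * a * x + b + 2 * l * y) * e4 + 4 * (a + 2 * x) * eqn h

lemma addSub_eval (s t u : ℚ) : (fun i => ((cv a b).addSubMap i).eval ![s, t, u]) =
    ![s ^ 2 - 2 * b * s * u + b ^ 2 * u ^ 2, 2 * t * s + 4 * a * s * u + 2 * b * t * u,
      t ^ 2 - 4 * s * u] := by
  ext i
  fin_cases i <;> simp [addSubMap, cv, b₂, b₄, b₆, b₈, -mul_eq_mul_right_iff]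

lemma sym_addSub (P Q : G a b) : ∃ c : ℚ,
    (fun i => ((cv a b).addSubMap i).eval (P.sym2x Q)) = c • (P + Q).sym2x (P - Q) := by
  have dbl : ∀ (x y : ℚ) (h : (cv a b).toAffine.Nonsingular x y), ∃ c : ℚ,
      (fun i => ((cv a b).addSubMap i).eval ![x * x, x + x, 1]) =
        c • ((some x y h : G a b) + some x y h).sym2x 0 := by
    intro x y h
    have e := eqn h
    rw [addSub_eval]
    by_cases hy : y = 0
    · rw [add_self_of_Y_eq (by rw [negY_cv, hy]; simp), sym2x_zero_zero]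
      refine ⟨(x ^ 2 - b) ^ 2, ?_⟩
      subst hy
      ext i
      fin_cases i <;> simp
      · ring
      · linear_combination (-4) * e
      · ring
    · obtain ⟨x₃, y₃, h₃, e1, e2⟩ := dbl_x h hy
      rw [e1, sym2x_some_zero]
      refine ⟨4 * y ^ 2, ?_⟩
      ext i
      fin_cases i <;> simp
      · linear_combination e2
      · linear_combination (-4) * e
      · ring
  match P, Q with
  | 0, 0 => exact ⟨1, by rw [sym2x_zero_zero, addSub_eval]; simp⟩
  | 0, .some x y h =>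
    refine ⟨1, ?_⟩
    rw [sym2x_zero_some, addSub_eval, zero_add, zero_sub, sym2x_neg_right, sym2x_some_some]
    ext i
    fin_cases i <;> simp <;> ring
  | .some x y h, 0 =>
    refine ⟨1, ?_⟩
    rw [sym2x_some_zero, addSub_eval, add_zero, sub_zero, sym2x_some_some]
    ext i
    fin_cases i <;> simp <;> ring
  | .some x₁ y₁ h₁, .some x₂ y₂ h₂ =>
    by_cases hx : x₁ = x₂
    · rcases (X_eq_iff (h₁ := h₁) (h₂ := h₂)).1 hx with h | h
      · rw [← h, sub_self, sym2x_some_some]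
        exact dbl x₁ y₁ h₁
      · rw [h, sym2x_neg_left, neg_add_cancel, ← neg_add', sym2x_neg_right, sym2x_comm 0,
          sym2x_some_some]
        exact dbl x₂ y₂ h₂
    · have e1 := eqn h₁
      have e2 := eqn h₂
      have hx0 : x₁ - x₂ ≠ 0 := sub_ne_zero.2 hx
      rw [sub_eq_add_neg, neg_some]
      obtain ⟨l, x₃, y₃, h₃, a1, a2, a3, -⟩ := add_struct h₁ h₂ (fun hh => hx hh.1)
      obtain ⟨m, x₄, y₄, h₄, b1, b2, b3, -⟩ := add_struct h₁ ((nonsingular_neg ..).mpr h₂)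
        (fun hh => hx hh.1)
      rw [a1, b1, sym2x_some_some, sym2x_some_some, addSub_eval]
      rw [negY_cv] at b3
      have a5 : x₃ * (x₁ - x₂) ^ 2 = (x₁ * x₂ + b) * (x₁ + x₂) + 2 * a * x₁ * x₂ - 2 * y₁ * y₂ := by
        rw [a2]
        linear_combination e1 + e2 - (y₁ - y₂ + l * (x₁ - x₂)) * a3
      have b5 : x₄ * (x₁ - x₂) ^ 2 = (x₁ * x₂ + b) * (x₁ + x₂) + 2 * a * x₁ * x₂ + 2 * y₁ * y₂ := by
        rw [b2]
        linear_combination e1 + e2 - (y₁ + y₂ + m * (x₁ - x₂)) * b3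
      refine ⟨(x₁ - x₂) ^ 2, ?_⟩
      ext i
      fin_cases i <;> simp
      · apply mul_left_cancel₀ (pow_ne_zero 2 hx0)
        linear_combination (-(x₄ * (x₁ - x₂) ^ 2)) * a5 -
          ((x₁ * x₂ + b) * (x₁ + x₂) + 2 * a * x₁ * x₂ - 2 * y₁ * y₂) * b5 + 4 * y₂ ^ 2 * e1 +
          4 * (x₁ ^ 3 + a * x₁ ^ 2 + b * x₁) * e2
      · linear_combination (-1) * a5 - b5
      · ring

/-- The naive height. -/
noncomputable def ht (P : G a b) : ℝ := logHeight P.xRep

lemma ht_par [(cv a b).IsElliptic] :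
    ∃ C, ∀ P Q : G a b, |ht (P + Q) + ht (P - Q) - 2 * (ht P + ht Q)| ≤ C := by
  obtain ⟨C1, h1⟩ := (cv a b).abs_logHeight_addSubMap_sub_two_mul_logHeight_le
  obtain ⟨C2, h2⟩ := abs_logHeight_sym2_sub_le ℚ
  have h3 : ∀ P Q : G a b, |logHeight (P.sym2x Q) - (ht P + ht Q)| ≤ C2 := by
    intro P Q
    have e : ∀ R : G a b, R.xRep = ![R.xRep 0, R.xRep 1] := fun R => by
      ext i; fin_cases i <;> rfl
    have := h2 (e P ▸ P.xRep_ne_zero) (e Q ▸ Q.xRep_ne_zero)
    rw [← e, ← e] at this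
    have e2 : P.sym2x Q = ![P.xRep 0 * Q.xRep 0, P.xRep 0 * Q.xRep 1 + P.xRep 1 * Q.xRep 0,
        P.xRep 1 * Q.xRep 1] := by
      cases P <;> cases Q <;> simp [← zero_def]
    rw [e2]
    exact this
  refine ⟨C1 + 3 * C2, fun P Q => ?_⟩
  obtain ⟨c, e⟩ := sym_addSub P Q
  have hc : c ≠ 0 := by
    rintro rfl
    exact (cv a b).addSubMap_ne_zero (P.sym2x_ne_zero Q) (e.trans (zero_smul _ _))
  have a1 := h1 (P.sym2x Q)
  rw [e, logHeight_smul_eq_logHeight _ hc] at a1
  have a2 := h3 P Q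
  have a3 := h3 (P + Q) (P - Q)
  rw [abs_le] at *
  constructor <;> linarith

instance : Northcott (ht (a := a) (b := b)) where
  finite_le B := by
    have h1 : {x : ℚ | logHeight₁ x ≤ B}.Finite := Northcott.finite_le B
    have h2 : ∀ x : ℚ, {P : G a b | P.xRep = ![x, 1]}.Finite := by
      intro x
      rcases Set.eq_empty_or_nonempty {P : G a b | P.xRep = ![x, 1]} with h | ⟨Q, hQ⟩
      · rw [h]; exact Set.finite_empty
      · refine (Set.toFinite {Q, -Q}).subset fun P hP => ?_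
        exact eq_or_eq_neg_of_xRep_eq_xRep (hP.trans hQ.symm)
    refine ((h1.biUnion fun x _ => h2 x).insert 0).subset fun P hP => ?_
    match P with
    | 0 => simp
    | .some x y h =>
      right
      simp only [Set.mem_iUnion]
      exact ⟨x, by simpa [ht, logHeight₁_eq_logHeight] using hP, rfl⟩

/-- The rank is one when doubles and torsion have index at most two in an infinite group. -/
lemma rank_one [(cv a b).IsElliptic] [Infinite (G a b)]
    (h0 : ((nsmulAddMonoidHom (α := G a b) 2).range ⊔ AddCommGroup.torsion (G a b)).index ≠ 0)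
    (h2 : ((nsmulAddMonoidHom (α := G a b) 2).range ⊔ AddCommGroup.torsion (G a b)).index ≤ 2) :
    Module.finrank ℤ (G a b) = 1 := by
  obtain ⟨C, hC⟩ := ht_par (a := a) (b := b)
  have hT := AddCommGroup.finite_torsion_of_descent' hC
  have hG : AddGroup.FG (G a b) := by
    refine AddCommGroup.fg_of_descent' (h := ht) ⟨?_⟩ (fun P => logHeight_nonneg _) hC
    rw [← AddSubgroup.relIndex_mul_index (le_sup_left (b := AddCommGroup.torsion (G a b))),
      AddSubgroup.relIndex_sup_left]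
    exact mul_ne_zero AddSubgroup.index_ne_zero_of_finite h0
  rw [LocInv.index_eq hG] at h2
  have h3 := (Nat.pow_le_pow_iff_right one_lt_two).1 (h2.trans_eq (pow_one 2).symm)
  refine le_antisymm h3 (Nat.pos_of_ne_zero fun h => ?_)
  have : Module.Finite ℤ (G a b) := Module.Finite.iff_addGroup_fg.2 hG
  refine not_finite_iff_infinite.2 ‹_› (Finite.of_surjective
    (Subtype.val : AddCommGroup.torsion (G a b) → G a b) fun P => ⟨⟨P, ?_⟩, rfl⟩)
  obtain ⟨k, hk⟩ := Module.finrank_eq_zero_iff.1 h P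
  exact isOfFinAddOrder_iff_zsmul_eq_zero.2 ⟨k, hk⟩

/-- The descent map at the root `e`. -/
def al (e : ℚ) : G a b → ℚ
  | 0 => 1
  | .some x _ _ => if x = e then 3 * e ^ 2 + 2 * a * e + b else x - e

lemma al_zero (e : ℚ) : al e (0 : G a b) = 1 := rfl

lemma al_some {x y : ℚ} (e : ℚ) (h : (cv a b).toAffine.Nonsingular x y) :
    al e (.some x y h : G a b) = if x = e then 3 * e ^ 2 + 2 * a * e + b else x - e := rfl

lemma al_neg (e : ℚ) (P : G a b) : al e (-P) = al e P := by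
  cases P <;> rfl

lemma al_ne {e : ℚ} (he : 3 * e ^ 2 + 2 * a * e + b ≠ 0) (P : G a b) : al e P ≠ 0 := by
  match P with
  | 0 => exact one_ne_zero
  | .some x y h =>
    rw [al_some]
    split_ifs with hx
    · exact he
    · exact sub_ne_zero.2 hx

lemma al_add {e : ℚ} (h0 : e ^ 3 + a * e ^ 2 + b * e = 0) (he : 3 * e ^ 2 + 2 * a * e + b ≠ 0)
    (P Q : G a b) : IsSquare (al e (P + Q) * al e P * al e Q) := by
  match P, Q with
  | 0, Q => exact ⟨al e Q, by rw [zero_add, al_zero, mul_one]⟩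
  | .some x y h, 0 => exact ⟨al e (.some x y h : G a b), by rw [add_zero, al_zero, mul_one]⟩
  | .some x₁ y₁ h₁, .some x₂ y₂ h₂ =>
    by_cases hxy : x₁ = x₂ ∧ y₁ = -y₂
    · rw [add_of_Y_eq hxy.1 (by rw [negY_cv]; exact hxy.2), al_zero, one_mul, al_some, al_some,
        hxy.1]
      exact ⟨_, rfl⟩
    · obtain ⟨l, x₃, y₃, h₃, a1, a2, a3, a4⟩ := add_struct h₁ h₂ hxy
      have e1 := eqn h₁
      have k1 : (x₁ - e) * (x₂ - e) * (x₃ - e) = (l * (e - x₁) + y₁) ^ 2 := by
        rw [a2]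
        linear_combination (e - x₁) * a4 - e1 - h0
      have k2 : (x₁ - e) * (x₂ - e) + (x₁ - e) * (x₃ - e) + (x₂ - e) * (x₃ - e) =
          3 * e ^ 2 + 2 * a * e + b - 2 * l * (l * (e - x₁) + y₁) := by
        rw [a2]
        linear_combination (-1) * a4
      rw [a1, al_some, al_some, al_some]
      generalize 3 * e ^ 2 + 2 * a * e + b = d at he k2
      by_cases hz : l * (e - x₁) + y₁ = 0
      · rw [hz] at k1 k2
        have two : ∀ u v w : ℚ, u * v + u * w + v * w = d → u = 0 → v ≠ 0 := by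
          intro u v w h hu hv
          apply he
          rw [← h, hu, hv]; ring
        by_cases c1 : x₁ = e
        · have c2 : x₂ ≠ e := sub_ne_zero.1
            (two (x₁ - e) (x₂ - e) (x₃ - e) (by linarith) (sub_eq_zero.2 c1))
          have c3 : x₃ ≠ e := sub_ne_zero.1
            (two (x₁ - e) (x₃ - e) (x₂ - e) (by linarith) (sub_eq_zero.2 c1))
          rw [if_pos c1, if_neg c2, if_neg c3]
          refine ⟨d, ?_⟩
          rw [c1] at k2
          linear_combination d * k2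
        by_cases c2 : x₂ = e
        · have c3 : x₃ ≠ e := sub_ne_zero.1
            (two (x₂ - e) (x₃ - e) (x₁ - e) (by linarith) (sub_eq_zero.2 c2))
          rw [if_neg c1, if_pos c2, if_neg c3]
          refine ⟨d, ?_⟩
          rw [c2] at k2
          linear_combination d * k2
        have c3 : x₃ = e := by
          by_contra c3
          exact mul_ne_zero (mul_ne_zero (sub_ne_zero.2 c1) (sub_ne_zero.2 c2))
            (sub_ne_zero.2 c3) (by rw [k1]; ring)
        rw [if_neg c1, if_neg c2, if_pos c3]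
        refine ⟨d, ?_⟩
        rw [c3] at k2
        linear_combination d * k2
      · have k3 : (x₁ - e) * (x₂ - e) * (x₃ - e) ≠ 0 := by rw [k1]; exact pow_ne_zero 2 hz
        have c1 : x₁ ≠ e := sub_ne_zero.1 (left_ne_zero_of_mul (left_ne_zero_of_mul k3))
        have c2 : x₂ ≠ e := sub_ne_zero.1 (right_ne_zero_of_mul (left_ne_zero_of_mul k3))
        have c3 : x₃ ≠ e := sub_ne_zero.1 (right_ne_zero_of_mul k3)
        rw [if_neg c1, if_neg c2, if_neg c3]
        exact ⟨l * (e - x₁) + y₁, by linear_combination k1⟩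

/-- Two points in the same class have a sum in the trivial class. -/
lemma al_same {e : ℚ} (h0 : e ^ 3 + a * e ^ 2 + b * e = 0) (he : 3 * e ^ 2 + 2 * a * e + b ≠ 0)
    {P Q : G a b} {u : ℚ} (hu : u ≠ 0) (h1 : IsSquare (al e P * u)) (h2 : IsSquare (al e Q * u)) :
    ∃ r, al e (P + Q) = r ^ 2 := by
  obtain ⟨r, hr⟩ := LocInv.sq_trans (al_ne he P) (al_ne he Q) (al_add h0 he P Q) h1 h2
  exact ⟨r / u, by field_simp; linear_combination hr⟩

end Pool.Agent.Lib.MP_02f36d_nt.TW.RankAux
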