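import Pool.Agent.Lib.MP_02f36d_nt.TW.Stmt
import Pool.Agent.Lib.MP_02f36d_nt.TW.Rank1
import Pool.Agent.Lib.MP_d6ddbd_nt.G.Fin

/-! The rank of the twist is one. -/

set_option autoImplicit false

noncomputable section

namespace Pool.Agent.Lib.MP_02f36d_nt.TW

open WeierstrassCurve WeierstrassCurve.Affine WeierstrassCurve.Affine.Point
open Pool.Agent.Lib.MP_d6ddbd_nt.G hiding al act
open Pool.Agent.Lib.MP_d6ddbd_nt.G.FinAux

namespace RankAux

variable {D : ℤ}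

abbrev GD (D : ℤ) := G (-15 * D) (-16 * D ^ 2)

lemma ell (hD : D ≠ 0) : (cv (-15 * D) (-16 * D ^ 2)).IsElliptic := by
  refine ⟨isUnit_iff_ne_zero.2 ?_⟩
  have : (cv (-15 * D) (-16 * D ^ 2)).Δ = 1088 ^ 2 * (D : ℚ) ^ 6 := by
    simp [cv, Δ, b₂, b₄, b₆, b₈]
    ring
  rw [this]
  positivity

lemma ns (hD : D ≠ 0) {x y : ℚ} (h : (x, y) ∈ Tw D) :
    (cv (-15 * D) (-16 * D ^ 2)).toAffine.Nonsingular (D * x) (D ^ 2 * y) := by
  have := ell hD
  have h1 : (D : ℚ) * y ^ 2 = x * (x + 1) * (x - 16) := h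
  exact mkNS (by linear_combination (D : ℚ) ^ 3 * h1)

lemma exists_tw (hD : D ≠ 0) (P : GD D) : P + P = 0 ∨
    ∃ (x y : ℚ) (h : (x, y) ∈ Tw D), y ≠ 0 ∧ P = .some _ _ (ns hD h) := by
  have hd : (D : ℚ) ≠ 0 := Int.cast_ne_zero.2 hD
  match P with
  | 0 => exact Or.inl (add_zero _)
  | .some x y h =>
    by_cases hy : y = 0
    · exact Or.inl (add_self_of_Y_eq (by rw [negY_cv, hy, _root_.neg_zero]))
    refine Or.inr ⟨x / D, y / D ^ 2, ?_, div_ne_zero hy (pow_ne_zero _ hd), ?_⟩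
    · change (D : ℚ) * (y / D ^ 2) ^ 2 = x / D * (x / D + 1) * (x / D - 16)
      field_simp
      linear_combination eqn h
    · rw [some.injEq]
      constructor <;> field_simp

lemma dbl_dl (hD : D ≠ 0) {x y : ℚ} (h : (x, y) ∈ Tw D) (hy : y ≠ 0) : ∃ y₃ h₃,
    (.some _ _ (ns hD h) : GD D) + .some _ _ (ns hD h) = .some (D * dl x) y₃ h₃ := by
  have hd : (D : ℚ) ≠ 0 := Int.cast_ne_zero.2 hD
  obtain ⟨x₃, y₃, h₃, e1, e2⟩ := dbl_x (ns hD h) (mul_ne_zero (pow_ne_zero _ hd) hy)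
  have h1 : (D : ℚ) * y ^ 2 = x * (x + 1) * (x - 16) := h
  obtain rfl : x₃ = D * dl x := by
    rw [dl, ← h1]
    field_simp
    apply mul_left_cancel₀ (pow_ne_zero 4 hd)
    linear_combination -e2
  exact ⟨y₃, h₃, e1⟩

lemma tors {P : GD D} (h : P + P = 0) : P ∈ AddCommGroup.torsion (GD D) :=
  isOfFinAddOrder_iff_nsmul_eq_zero.2 ⟨2, two_pos, by rw [two_nsmul, h]⟩

lemma half' (hD : D ≠ 0) {P : GD D} (h1 : ∃ r, al 0 P = r ^ 2) (h2 : ∃ r, al (-D) P = r ^ 2) :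
    P ∈ (nsmulAddMonoidHom (α := GD D) 2).range ⊔ AddCommGroup.torsion (GD D) := by
  have hd : (D : ℚ) ≠ 0 := Int.cast_ne_zero.2 hD
  rcases exists_tw hD P with h | ⟨x, y, h, hy, rfl⟩
  · exact AddSubgroup.mem_sup_right (tors h)
  obtain ⟨x0, x1, -⟩ := ne_of_tw hD hy h
  obtain ⟨r, hr⟩ := h1
  obtain ⟨s, hs⟩ := h2
  rw [al_some, if_neg (mul_ne_zero hd x0), sub_zero] at hr
  rw [al_some, if_neg fun e => mul_ne_zero hd x1 (by linear_combination e)] at hs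
  obtain ⟨u, v, hv, h3, rfl⟩ := half hD hy h hr (s := s) (by linear_combination hs)
  obtain ⟨y₃, h₃, e⟩ := dbl_dl hD h3 hv
  refine AddSubgroup.mem_sup_left ?_
  rcases (X_eq_iff (h₁ := ns hD h) (h₂ := h₃)).1 rfl with h4 | h4 <;> rw [h4, ← e, ← two_nsmul]
  · exact ⟨_, rfl⟩
  · exact neg_mem ⟨_, rfl⟩

lemma cls (hD : DescStmt) {S : Finset ℕ} (hS : Prs S) (h0 : dsc S ≠ 0) (P : GD (dsc S)) :
    ∃ k ∈ Ker S, ∃ t ∈ AddCommGroup.torsion (GD (dsc S)),
      IsSquare (al 0 (P + t) * dsc k.1) ∧ IsSquare (al (-dsc S) (P + t) * dsc k.2) := by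
  have hd : (dsc S : ℚ) ≠ 0 := Int.cast_ne_zero.2 h0
  rcases exists_tw h0 P with h | ⟨x, y, h, hy, rfl⟩
  · refine ⟨_, zero_mem S, P, tors h, ?_⟩
    rw [h, al_zero, al_zero]
    simp [dsc]
  obtain ⟨x1, y1, hy1, hx1, e1, he1⟩ := step1 hS hy h
  obtain ⟨u, v, hv, hu, e2, he2, a, ha, r, hr⟩ := step2 hS hy1 hx1 he1
  obtain ⟨b, -, hb, r', hr'⟩ := hD S hS a ha u v r hv hu hr he2
  obtain ⟨u0, u1, -⟩ := ne_of_tw h0 hv hu
  obtain ⟨y₃, h₃, e3⟩ := dbl_dl h0 h hy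
  obtain ⟨y₄, h₄, e4⟩ := dbl_dl h0 hu hv
  have a1 : IsSquare (al 0 (.some _ _ (ns h0 hu) : GD (dsc S)) * dsc a) := by
    rw [al_some, if_neg (mul_ne_zero hd u0), sub_zero, hr]
    exact ⟨dsc a * r, by ring⟩
  have a2 : IsSquare (al (-dsc S) (.some _ _ (ns h0 hu) : GD (dsc S)) * dsc b) := by
    rw [al_some, if_neg fun e => mul_ne_zero hd u1 (by linear_combination e)]
    exact ⟨dsc b * r', by linear_combination (dsc b : ℚ) * hr'⟩
  rcases (X_eq_iff (h₁ := h₃) (h₂ := h₄)).1 (by rw [e2, e1]) with h4 | h4 <;> rw [← e3, ← e4] at h4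
  · refine ⟨_, hb, .some _ _ (ns h0 hu) - .some _ _ (ns h0 h), tors ?_, ?_⟩
    · rw [sub_add_sub_comm, h4, sub_self]
    · rw [add_sub_cancel]
      exact ⟨a1, a2⟩
  · refine ⟨_, hb, -.some _ _ (ns h0 hu) - .some _ _ (ns h0 h), tors ?_, ?_⟩
    · rw [sub_add_sub_comm, h4, neg_add, sub_self]
    · rw [add_sub_cancel, al_neg, al_neg]
      exact ⟨a1, a2⟩

end RankAux

open RankAux in
theorem rank (hD : DescStmt) : RankStmt := by
  intro S hS hK hI
  have h0 : dsc S ≠ 0 := fun h0 => by have := dsc_mod hS; omega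
  have hd : (dsc S : ℚ) ≠ 0 := Int.cast_ne_zero.2 h0
  have := ell h0
  have : Infinite (GD (dsc S)) := by
    have := hI.to_subtype
    refine Infinite.of_injective (fun P : Tw (dsc S) => .some _ _ (ns h0 P.2)) fun P Q e => ?_
    rw [some.injEq] at e
    exact Subtype.ext (Prod.ext (mul_left_cancel₀ hd e.1)
      (mul_left_cancel₀ (pow_ne_zero _ hd) e.2))
  choose k hk t ht h1 h2 using cls hD hS h0
  have hn : ∀ P, (dsc (k P).1 : ℚ) ≠ 0 ∧ (dsc (k P).2 : ℚ) ≠ 0 := fun P => by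
    have h3 := Finset.mem_product.1 (Finset.mem_filter.1 (hk P)).1
    have h4 : ∀ a ∈ S.powerset, (dsc a : ℚ) ≠ 0 := fun a ha => Int.cast_ne_zero.2 fun e => by
      have := dsc_mod (S := a) fun p hp => hS p (Finset.mem_powerset.1 ha hp)
      omega
    exact ⟨h4 _ h3.1, h4 _ h3.2⟩
  let H := (nsmulAddMonoidHom (α := GD (dsc S)) 2).range ⊔ AddCommGroup.torsion (GD (dsc S))
  have hi : Function.Injective fun q : GD (dsc S) ⧸ H => (⟨k q.out, hk _⟩ : Ker S) := by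
    intro p q e
    have e' : k p.out = k q.out := congrArg Subtype.val e
    have h3 : p.out + t p.out + (q.out + t q.out) ∈ H := half' h0
      (al_same (by ring) (by simpa using hd) (hn _).1 (h1 _) (e' ▸ h1 _))
      (al_same (by ring) (fun e => hd (pow_eq_zero_iff two_ne_zero |>.1
        (by linear_combination e / 17))) (hn _).2 (h2 _) (e' ▸ h2 _))
    rw [← p.out_eq', ← q.out_eq', QuotientAddGroup.eq]
    have h4 : 2 • p.out ∈ H := AddSubgroup.mem_sup_left ⟨_, rfl⟩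
    have h5 := sub_mem (sub_mem (sub_mem h3 h4) (AddSubgroup.mem_sup_right (ht p.out)))
      (AddSubgroup.mem_sup_right (ht q.out))
    rwa [show p.out + t p.out + (q.out + t q.out) - 2 • p.out - t p.out - t q.out =
      -p.out + q.out by abel] at h5
  have := Finite.of_injective _ hi
  refine rank_one (a := -15 * dsc S) (b := -16 * dsc S ^ 2) AddSubgroup.index_ne_zero_of_finite ?_
  have h3 := Nat.card_le_card_of_injective _ hi
  rwa [Nat.card_eq_finsetCard, hK] at h3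

end Pool.Agent.Lib.MP_02f36d_nt.TW
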