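import Pool.Agent.Lib.MP_02f36d_nt.TW.Stmt

/-! The root number of the twists. -/

open WeierstrassCurve IsDedekindDomain

noncomputable section

namespace Pool.Agent.Lib.MP_02f36d_nt.TW

variable {p : ℕ} [hp : Fact p.Prime]

/-- The multiplicative valuation of the field of `p`-adic numbers. -/
abbrev vp (p : ℕ) [Fact p.Prime] :=
  HeightOneSpectrum.valuation ℚ_[p] (IsDiscreteValuationRing.maximalIdeal ℤ_[p])

theorem exists_int {x : ℚ_[p]} (h : ‖x‖ ≤ 1) : ∃ r : ℤ_[p], algebraMap ℤ_[p] ℚ_[p] r = x :=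
  ⟨⟨x, h⟩, rfl⟩

theorem vp_lt {x : ℚ_[p]} (h : ‖x‖ ≤ 1) : vp p x < 1 ↔ ‖x‖ < 1 := by
  obtain ⟨r, rfl⟩ := exists_int h
  exact (HeightOneSpectrum.valuation_lt_one_iff_mem _ r).trans PadicInt.mem_nonunits

theorem min_unit (V : WeierstrassCurve ℤ) (W : WeierstrassCurve ℚ_[p]) (C₀ : VariableChange ℚ_[p])
    (h : C₀ • W = V.map (Int.castRingHom _)) (hΔ : ¬ (p : ℤ) ^ 12 ∣ V.Δ) :
    ∃ u : ℚ_[p], ‖u‖ = 1 ∧ (W.minimal ℤ_[p]).Δ = u ^ 12 * V.Δ ∧
      (W.minimal ℤ_[p]).c₄ = u ^ 4 * V.c₄ ∧ (W.minimal ℤ_[p]).c₆ = u ^ 6 * V.c₆ := by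
  obtain ⟨C, hC⟩ : ∃ C : VariableChange ℚ_[p],
      W.minimal ℤ_[p] = C • V.map (Int.castRingHom _) :=
    ⟨(W.exists_isMinimal ℤ_[p]).choose * C₀⁻¹, by rw [← h, mul_smul, inv_smul_smul]; rfl⟩
  have hm : IsMinimal ℤ_[p] (W.minimal ℤ_[p]) := inferInstance
  generalize W.minimal ℤ_[p] = M at hC hm ⊢
  have e : M.Δ = ((C.u⁻¹ : ℚ_[p]ˣ) : ℚ_[p]) ^ 12 * V.Δ := by
    rw [hC, variableChange_Δ, map_Δ]; rfl
  refine ⟨(C.u⁻¹ : ℚ_[p]ˣ), ?_, e, by rw [hC, variableChange_c₄, map_c₄]; rfl,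
    by rw [hC, variableChange_c₆, map_c₆]; rfl⟩
  have hu := (C.u⁻¹).ne_zero
  generalize ((C.u⁻¹ : ℚ_[p]ˣ) : ℚ_[p]) = u at e hu
  have h0 : (V.Δ : ℚ_[p]) ≠ 0 := fun k => hΔ (by rw [Int.cast_eq_zero.1 k]; exact dvd_zero _)
  have hV : C⁻¹ • M = V.map (Int.castRingHom _) := by rw [hC, inv_smul_smul]
  have iV : IsIntegral ℤ_[p] (C⁻¹ • M) := ⟨V.map (Int.castRingHom _), by
    rw [hV, baseChange, map_map]; rfl⟩
  have h1 : vp p (C⁻¹ • M).Δ ≤ vp p M.Δ := by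
    have := hm.val_Δ_maximal.le iV
    rw [one_smul, ← Subtype.coe_le_coe, valuation_Δ_aux_eq_of_isIntegral,
      valuation_Δ_aux_eq_of_isIntegral] at this
    exact this
  have h2 : 1 ≤ vp p u := by
    rw [hV, map_Δ, e, map_mul, map_pow] at h1
    by_contra hlt
    exact absurd h1 (not_le.2 (mul_lt_of_lt_one_left (zero_lt_iff.2 ((map_ne_zero _).2 h0))
      (pow_lt_one₀ zero_le (not_le.1 hlt) (by norm_num))))
  have h3 : 1 ≤ ‖u‖ := by
    by_contra hlt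
    exact absurd ((vp_lt (not_le.1 hlt).le).2 (not_le.1 hlt)) (not_lt.2 h2)
  refine le_antisymm (not_lt.1 fun hlt => hΔ ?_) h3
  obtain ⟨r, hr⟩ := Δ_integral_of_isIntegral ℤ_[p] M
  have h4 : ‖u‖ ^ 12 * ‖(V.Δ : ℚ_[p])‖ ≤ 1 := by
    rw [← norm_pow, ← norm_mul, ← e, ← hr]
    exact r.2
  have h5 : ‖u⁻¹‖ ≤ (p : ℝ) ^ (-1 : ℤ) := by
    rw [Padic.norm_le_pow_iff_norm_lt_pow_add_one, norm_inv]
    simpa using inv_lt_one_of_one_lt₀ hlt
  rw [← Padic.norm_int_le_pow_iff_dvd]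
  calc _ ≤ ‖u⁻¹‖ ^ 12 := by
        rw [norm_inv, inv_pow, ← mul_one (_⁻¹), le_inv_mul_iff₀ (by positivity)]
        exact h4
    _ ≤ ((p : ℝ) ^ (-1 : ℤ)) ^ 12 := pow_le_pow_left₀ (norm_nonneg _) h5 _
    _ = _ := by rw [← zpow_natCast, ← zpow_mul]; norm_num

open Polynomial in
theorem splits_quad {F : Type*} [Field F] {a b c s : F} (h2 : (2 : F) ≠ 0) (ha : a ≠ 0)
    (h : b ^ 2 + 4 * a * c = s ^ 2) : Splits (C a * X ^ 2 + C b * X - C c) := by
  obtain ⟨x, y, h1, h3⟩ : ∃ x y : F, b = -(a * (x + y)) ∧ c = -(a * x * y) := by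
    refine ⟨(-b + s) / (2 * a), (-b - s) / (2 * a), ?_, ?_⟩ <;> field_simp
    · ring
    · linear_combination h
  have : C a * X ^ 2 + C b * X - C c = C a * ((X - C x) * (X - C y)) := by
    rw [h1, h3]
    simp only [map_neg, map_mul, map_add]
    ring
  rw [this]
  exact (Splits.C a).mul ((Splits.X_sub_C x).mul (Splits.X_sub_C y))

theorem model {n : ℕ} (hs : Squarefree n) (h4 : n % 4 = 3) (hc : n.Coprime 51) (p : ℕ)
    [hp : Fact p.Prime] : ∃ u : ℚ_[p], ‖u‖ = 1 ∧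
      (minModel (ED (-n)) p).Δ = u ^ 12 * (289 * n ^ 6 : ℤ) ∧
      (minModel (ED (-n)) p).c₄ = u ^ 4 * (273 * n ^ 2 : ℤ) ∧
      (minModel (ED (-n)) p).c₆ = u ^ 6 * (-4455 * n ^ 3 : ℤ) := by
  obtain ⟨k, hk⟩ : ∃ k : ℤ, (n : ℤ) = 4 * k + 3 := ⟨n / 4, by omega⟩
  let V : WeierstrassCurve ℤ := ⟨1, 15 * k + 11, 0, -n ^ 2, 0⟩
  have e1 : V.Δ = 289 * n ^ 6 := by simp only [V, Δ, b₂, b₄, b₆, b₈, hk]; ring
  have e2 : V.c₄ = 273 * n ^ 2 := by simp only [V, c₄, b₂, b₄, hk]; ring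
  have e3 : V.c₆ = -4455 * n ^ 3 := by simp only [V, c₆, b₂, b₄, b₆, hk]; ring
  rw [← e1, ← e2, ← e3]
  refine min_unit V _ ⟨Units.mk0 2 two_ne_zero, 0, 1, 0⟩ ?_ fun hd => ?_
  · have hk' : (n : ℚ_[p]) = 4 * k + 3 := by exact_mod_cast hk
    ext <;> simp [V, ED, baseChange, variableChange_def, hk'] <;> ring
  · rw [e1] at hd
    have hd' : p ^ 12 ∣ 17 ^ 2 * n ^ 6 := by exact_mod_cast hd
    by_cases h17 : p = 17
    · subst h17
      have : Nat.Coprime (17 ^ 12) (n ^ 6) :=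
        (hc.symm.coprime_dvd_left (by norm_num : 17 ∣ 51)).pow _ _
      exact absurd (this.dvd_of_dvd_mul_right hd') (by norm_num)
    · have : Nat.Coprime (p ^ 12) (17 ^ 2) :=
        ((Nat.coprime_primes hp.1 (by norm_num)).2 h17).pow _ _
      have h6 := this.dvd_of_dvd_mul_left hd'
      rw [show p ^ 12 = (p * p) ^ 6 by ring, Nat.pow_dvd_pow_iff (by norm_num)] at h6
      exact hp.1.one_lt.ne' (Nat.isUnit_iff.1 (hs p h6))

theorem norm_unit {k : ℤ} (h : ¬ (p : ℤ) ∣ k) : ‖(k : ℚ_[p])‖ = 1 :=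
  le_antisymm (Padic.norm_int_le_one k) (not_lt.1 fun l => h (Padic.norm_intCast_lt_one_iff.1 l))

theorem vp_int {u : ℚ_[p]} (hu : ‖u‖ = 1) (m : ℕ) (k : ℤ) :
    vp p (u ^ m * k) < 1 ↔ (p : ℤ) ∣ k := by
  have : ‖u ^ m * k‖ = ‖(k : ℚ_[p])‖ := by rw [norm_mul, norm_pow, hu, one_pow, one_mul]
  rw [vp_lt (this ▸ Padic.norm_int_le_one k), this, Padic.norm_intCast_lt_one_iff]

theorem good {n : ℕ} (hs : Squarefree n) (h4 : n % 4 = 3) (hc : n.Coprime 51) (h1 : p ≠ 17)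
    (h2 : ¬ p ∣ n) : ¬ vp p (minModel (ED (-n)) p).Δ < 1 := by
  obtain ⟨u, hu, e, -⟩ := model hs h4 hc p
  rw [e, vp_int hu]
  intro h
  have h' : p ∣ 17 ^ 2 * n ^ 6 := by exact_mod_cast h
  rcases (Nat.Prime.dvd_mul hp.1).1 h' with h | h
  · exact h1 ((Nat.prime_dvd_prime_iff_eq hp.1 (by norm_num)).1 (hp.1.dvd_of_dvd_pow h))
  · exact h2 (hp.1.dvd_of_dvd_pow h)

theorem root_add {n : ℕ} (hs : Squarefree n) (h4 : n % 4 = 3) (hc : n.Coprime 51) (h2 : p ∣ n) :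
    localRoot (ED (-n)) p = jacobiSym (-1) p := by
  obtain ⟨u, hu, e1, e2, -⟩ := model hs h4 hc p
  have h2' : (p : ℤ) ∣ n := by exact_mod_cast h2
  have a1 : vp p (minModel (ED (-n)) p).Δ < 1 := by
    rw [e1, vp_int hu]
    exact (dvd_pow h2' (by norm_num)).mul_left _
  have a2 : vp p (minModel (ED (-n)) p).c₄ < 1 := by
    rw [e2, vp_int hu]
    exact (dvd_pow h2' (by norm_num)).mul_left _
  have a3 : (minModel (ED (-n)) p).HasAdditiveReduction ℤ_[p] :=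
    { toIsMinimal := inferInstanceAs (IsMinimal ℤ_[p] (minimal _ _))
      badReduction := a1
      additiveReduction := a2 }
  have a4 : (minModel (ED (-n)) p).Δ.valuation = 6 := by
    obtain ⟨m, rfl⟩ := h2
    have b1 : ¬ (p : ℤ) ∣ m := fun h => hp.1.one_lt.ne' (Nat.isUnit_iff.1
      (hs p (Nat.mul_dvd_mul_left p (by exact_mod_cast h))))
    have b2 : ¬ (p : ℤ) ∣ (17 : ℤ) := fun h => hp.1.one_lt.ne' ((Nat.coprime_self _).1
      ((hc.coprime_dvd_left (dvd_mul_right p m)).coprime_dvd_right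
        ((by exact_mod_cast h : p ∣ 17).trans (by norm_num))))
    have b3 : ‖(minModel (ED (-(p * m : ℕ))) p).Δ‖ = (p : ℝ) ^ (-6 : ℤ) := by
      have : ((289 * ((p * m : ℕ) : ℤ) ^ 6 : ℤ) : ℚ_[p]) =
          ((17 : ℤ) : ℚ_[p]) ^ 2 * ((m : ℤ) : ℚ_[p]) ^ 6 * (p : ℚ_[p]) ^ (6 : ℤ) := by
        rw [zpow_ofNat]; push_cast; ring
      rw [e1, this]
      simp only [norm_mul, norm_pow, hu, norm_unit b1, norm_unit b2, Padic.norm_p_zpow, one_pow,
        one_mul]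
    have b4 : (1 : ℝ) < p := by exact_mod_cast hp.1.one_lt
    rw [Padic.norm_eq_zpow_neg_valuation (norm_pos_iff.1 (by rw [b3]; positivity))] at b3
    exact neg_injective (zpow_right_injective₀ (by linarith) b4.ne' b3)
  rw [localRoot, if_neg fun h => a3.not_hasMultiplicativeReduction _ h.toHasMultiplicativeReduction,
    if_neg (not_not.2 a3), a4]
  simp

theorem root_split {n : ℕ} (hs : Squarefree n) (h4 : n % 4 = 3) (hc : n.Coprime 51)
    (hj : jacobiSym 17 n = 1) [Fact (Nat.Prime 17)] : localRoot (ED (-n)) 17 = -1 := by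
  obtain ⟨u, hu, e1, e2, e3⟩ := model hs h4 hc 17
  have hm : IsMinimal ℤ_[17] (minModel (ED (-n)) 17) :=
    inferInstanceAs (IsMinimal ℤ_[17] (minimal _ _))
  have a1 : vp 17 (minModel (ED (-n)) 17).Δ < 1 := by
    rw [e1, vp_int hu]
    exact Dvd.dvd.mul_right (by norm_num) _
  have a2 : ¬ vp 17 (minModel (ED (-n)) 17).c₄ < 1 := by
    rw [e2, vp_int hu]
    intro h
    have h' : 17 ∣ 273 * n ^ 2 := by exact_mod_cast h
    have : Nat.Coprime 17 (n ^ 2) :=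
      (hc.symm.coprime_dvd_left (by norm_num : 17 ∣ 51)).pow_right _
    exact absurd (this.dvd_of_dvd_mul_right h') (by norm_num)
  obtain ⟨e, m, he⟩ : ∃ e m : ℤ, (n : ℤ) = e ^ 2 + 17 * m := by
    have h1 := jacobiSym.quadratic_reciprocity_one_mod_four (a := 17) (b := n) (by norm_num)
      (Nat.odd_iff.2 (by omega))
    obtain ⟨r, hr⟩ := ZMod.isSquare_of_jacobiSym_eq_one (h1.symm.trans hj)
    obtain ⟨e, rfl⟩ := ZMod.intCast_surjective r
    obtain ⟨m, hm⟩ := (ZMod.intCast_eq_intCast_iff_dvd_sub (e * e) n 17).1 (by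
      rw [hr]; push_cast; rfl)
    exact ⟨e, m, by linear_combination hm⟩
  rw [localRoot, if_pos]
  generalize minModel (ED (-n)) 17 = M at *
  have c1 := integralModel_c₄_eq ℤ_[17] M
  have c2 := integralModel_c₆_eq ℤ_[17] M
  refine { toIsMinimal := hm
           badReduction := a1
           multiplicativeReduction := le_antisymm
             (c1 ▸ HeightOneSpectrum.valuation_le_one _ _) (not_lt.1 a2)
           splitMultiplicativeReduction := ?_ }
  rw [← c1] at a2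
  generalize integralModel ℤ_[17] M = I at *
  let φ := algebraMap ℤ_[17] (IsLocalRing.ResidueField ℤ_[17])
  have d0 : (17 : IsLocalRing.ResidueField ℤ_[17]) = 0 := by
    rw [← map_ofNat φ]
    exact (IsLocalRing.residue_eq_zero_iff _).2 
      (PadicInt.mem_nonunits.2 (Padic.norm_p_lt_one (p := 17)))
  have d1 : φ I.c₄ ≠ 0 := fun h => a2 ((HeightOneSpectrum.valuation_lt_one_iff_mem _ _).2
    ((IsLocalRing.residue_eq_zero_iff _).1 h))
  obtain ⟨w, rfl⟩ := exists_int hu.le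
  have d2 : I.c₄ = w ^ 4 * (273 * n ^ 2 : ℤ) := IsFractionRing.injective ℤ_[17] ℚ_[17] (by
    rw [c1, e2, map_mul, map_pow, map_intCast])
  have d3 : I.c₆ = w ^ 6 * (-4455 * n ^ 3 : ℤ) := IsFractionRing.injective ℤ_[17] ℚ_[17] (by
    rw [c2, e3, map_mul, map_pow, map_intCast])
  have d4 : (I.a₁ * I.c₄) ^ 2 + 4 * I.c₄ * (54 * I.b₆ - 3 * I.b₂ * I.b₄ + I.a₂ * I.c₄) =
      -(I.c₄ * I.c₆) := by
    simp only [c₄, c₆, b₂, b₄, b₆]
    ring
  simp only [Polynomial.map_sub, Polynomial.map_add, Polynomial.map_mul, Polynomial.map_pow,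
    Polynomial.map_C, Polynomial.map_X]
  refine splits_quad (s := φ w ^ 5 * e ^ 5)
    (fun h => one_ne_zero' (IsLocalRing.ResidueField ℤ_[17]) (by linear_combination 9 * h - d0))
    d1 ?_
  have d5 := congrArg φ d4
  have he' : (n : IsLocalRing.ResidueField ℤ_[17]) = e ^ 2 := by
    have := congrArg (Int.cast (R := IsLocalRing.ResidueField ℤ_[17])) he
    push_cast at this
    rw [this, d0, zero_mul, add_zero]
  rw [map_add, map_pow, map_mul φ (4 * _), map_mul φ 4, map_ofNat] at d5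
  rw [d5, d2, d3]
  simp only [map_neg, map_mul, map_pow, map_intCast]
  push_cast
  rw [he']
  linear_combination 71542 * φ w ^ 10 * e ^ 10 * d0

theorem root : RootStmt := by
  intro n hs h4 hc hj
  have h17 : ¬ 17 ∣ n := fun h => absurd
    (Nat.dvd_gcd h (by norm_num : 17 ∣ 51)) (by rw [hc]; norm_num)
  refine ⟨fun h => good hs h4 hc (by norm_num) (by omega) h.badReduction,
    fun h => good hs h4 hc (by norm_num) (fun k => absurd
      (Nat.dvd_gcd k (by norm_num : 3 ∣ 51)) (by rw [hc]; norm_num)) h.badReduction, ?_⟩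
  let g : ℕ → ℤ := fun q => if q = 17 then -1 else if q ∣ n then jacobiSym (-1) q else 1
  have e1 : ∀ q : Nat.Primes, @localRoot (ED (-n)) q ⟨q.2⟩ = g q := by
    rintro ⟨q, hq⟩
    have : Fact q.Prime := ⟨hq⟩
    simp only [g]
    split_ifs with a1 a2
    · subst a1
      exact root_split hs h4 hc hj
    · exact root_add hs h4 hc a2
    · have := good hs h4 hc a1 a2
      rw [localRoot, if_neg fun h => this h.badReduction, if_pos fun h => this h.badReduction]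
  have e2 : ∏ᶠ q : Nat.Primes, g q = ∏ q ∈ insert 17 n.primeFactors, g q := by
    refine (finprod_subtype_eq_finprod_cond (f := g) Nat.Prime).trans
      (finprod_cond_eq_prod_of_cond_iff g fun {q} hq => ?_)
    rw [Finset.mem_insert, Nat.mem_primeFactors]
    simp only [g] at hq
    split_ifs at hq with a1 a2
    · subst a1
      norm_num
    · simp [a1, a2, hs.ne_zero]
    · exact absurd rfl hq
  have e3 : ∏ q ∈ n.primeFactors, g q = -1 := by
    have : ∀ q ∈ n.primeFactors, g q = ZMod.χ₄ q := fun q hq => by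
      have a1 := Nat.dvd_of_mem_primeFactors hq
      simp only [g]
      rw [if_neg fun h : q = 17 => h17 (h ▸ a1), if_pos a1,
        jacobiSym.at_neg_one ((Nat.odd_iff.2 (by omega) : Odd n).of_dvd_nat a1)]
    rw [Finset.prod_congr rfl this, ← map_prod, ← Nat.cast_prod,
      Nat.prod_primeFactors_of_squarefree hs, ZMod.χ₄_nat_three_mod_four h4]
  rw [finprod_congr e1, e2, Finset.prod_insert fun h => h17 (Nat.dvd_of_mem_primeFactors h), e3]
  simp [g]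

end Pool.Agent.Lib.MP_02f36d_nt.TW
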