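import Mathlib

/-! Root numbers of elliptic curves over the rationals that are semistable at `2` and `3`. -/

open WeierstrassCurve

noncomputable section

namespace Pool.Agent.Lib.MP_02f36d_nt.TW

/-- A minimal model over the `p`-adic integers. -/
noncomputable def minModel (W : WeierstrassCurve ℚ) (p : ℕ) [Fact p.Prime] :
    WeierstrassCurve ℚ_[p] :=
  (W.baseChange ℚ_[p]).minimal ℤ_[p]

open Classical in
/-- The local root number at `p` by the formulas of Rohrlich, which are valid when the reduction is
not additive or `5 ≤ p`. -/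
noncomputable def localRoot (W : WeierstrassCurve ℚ) (p : ℕ) [Fact p.Prime] : ℤ :=
  if (minModel W p).HasSplitMultiplicativeReduction ℤ_[p] then -1
  else if ¬ (minModel W p).HasAdditiveReduction ℤ_[p] then 1
  else if ‖(minModel W p).Δ‖ < ‖(minModel W p).c₄‖ ^ 3 then jacobiSym (-1) p
  else if (minModel W p).Δ.valuation % 4 = 0 then jacobiSym (-3) p
  else if (minModel W p).Δ.valuation % 2 = 1 then jacobiSym (-2) p
  else jacobiSym (-1) p

/-- The reduction at `2` and at `3` is not additive, and `w` is the product of the local root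
numbers, the one at the infinite place being `-1`. -/
def HasRootNumber (W : WeierstrassCurve ℚ) (w : ℤ) : Prop :=
  ¬ (minModel W 2).HasAdditiveReduction ℤ_[2] ∧ ¬ (minModel W 3).HasAdditiveReduction ℤ_[3] ∧
    w = -∏ᶠ p : Nat.Primes, @localRoot W p ⟨p.2⟩

end Pool.Agent.Lib.MP_02f36d_nt.TW
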