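import Pool.Agent.Lib.MP_02f36d_nt.TW.Defs
import Pool.Agent.Lib.MP_d6ddbd_nt.G.Stmt

/-! Statements of the pieces. -/

open WeierstrassCurve Pool.Agent.Lib.MP_d6ddbd_nt.G

noncomputable section

namespace Pool.Agent.Lib.MP_02f36d_nt.TW

/-- The curve `y ^ 2 = x (x + D) (x - 16 D)`. -/
def ED (D : ℤ) : WeierstrassCurve ℚ := ⟨0, -15 * D, 0, -16 * D ^ 2, 0⟩

/-- The rank is one. -/
def RankStmt : Prop := ∀ S : Finset ℕ, Prs S → (Ker S).card = 2 → (Tw (dsc S)).Infinite →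
  Module.finrank ℤ (ED (dsc S)).toAffine.Point = 1

/-- The root number is `-1`. -/
def RootStmt : Prop := ∀ n : ℕ, Squarefree n → n % 4 = 3 → n.Coprime 51 → jacobiSym 17 n = 1 →
  HasRootNumber (ED (-n)) (-1)

end Pool.Agent.Lib.MP_02f36d_nt.TW
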